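import Mathlib
import Pool.Agent.N870.RG.Jac
import Pool.Agent.Y723.SJ.Def
import Pool.Agent.Y723.SJ.Cmp
import Pool.Agent.Y723.JG.Main
import Pool.Agent.Y723.PJ.Prm
import Pool.Agent.TH344.SG.Cor

/-!
# Tate-Shafarevich groups in one-parameter families of Jacobians at almost prime arguments

Let `g ≥ 1` and let `u_0, ..., u_(2 g)` be polynomials with integer coefficients. For an integer `t`
with distinct values `u_i(t)` let `J_t` be the Jacobian of `y² = ∏ (x - u_i(t))`. Let `G_0, ..., G_r`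
be a system of polynomials as in the conjecture of Schinzel (irreducible, with positive leading
coefficients, without a fixed prime divisor), such that the product of the differences `u_i - u_j`,
`i < j`, and of the `G_i` is squarefree over `ℚ`. In every interval `(X, X + Y]` with `X ^ θ ≤ Y ≤ X`
there are at least `κ Y / (log X) ^ (r + 1)` integers `t` for which all the values `G_i(t)` have at
most `K` prime factors. We bound the average over these `t` of the `k`-th power of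
`(#(J_t(ℚ) / 2 ^ m) * #Ш(J_t)[2 ^ m]) ^ (1 / m)`, uniformly in `m`, and of `2 ^ (rank + corank)`,
without an exceptional set, if the numbers of the irreducible factors of the differences are
balanced. If these numbers are equal the condition is `2 ^ k ≤ 2 g`.
-/

namespace Pool.Agent.Results.MP_a43263_nt.JacobiansAtAlmostPrimes

open Finset Polynomial UniqueFactorizationMonoid Pool.Agent.Y723.SJ Pool.Agent.TH344.SG

variable {g : ℕ}

/-- the tuple of the values -/
def val (u : Fin (2 * g + 1) → ℤ[X]) (t : ℤ) (i : Fin (2 * g + 1)) : ℤ := (u i).eval t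

/-- the number of the elements of `Ш(J)` killed by `n`, `J` the Jacobian of `y² = ∏ (x - a i)` -/
noncomputable def sha (n : ℕ) (a : Fin (2 * g + 1) → ℤ) : ℕ := Nat.card (ShaTorsion a n)

/-- the number of the elements of `J(ℚ) / n J(ℚ)` -/
noncomputable def quo (n : ℕ) (a : Fin (2 * g + 1) → ℤ) : ℕ := Nat.card (QuotQ a n)

/-- The corank of the 2-primary part of `Ш(J)`: the largest `t` such that `(ℤ / 2 ^ n) ^ t` embeds
in `Ш(J)` for all `n`. -/
noncomputable def corank (a : Fin (2 * g + 1) → ℤ) : ℕ := corank2 (Sha a)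

/-- the pairs `(i, j)` with `i < j` -/
def Pairs (g : ℕ) : Finset (Fin (2 * g + 1) × Fin (2 * g + 1)) := univ.filter (fun c => c.1 < c.2)

/-- the two pairs are different and have a common index -/
def Meet (c d : Fin (2 * g + 1) × Fin (2 * g + 1)) : Prop :=
  c ≠ d ∧ (c.1 = d.1 ∨ c.1 = d.2 ∨ c.2 = d.1 ∨ c.2 = d.2)

/-- the difference `u_i - u_j`, `c = (i, j)`, as a polynomial with rational coefficients -/
noncomputable def diff (u : Fin (2 * g + 1) → ℤ[X]) (c : Fin (2 * g + 1) × Fin (2 * g + 1)) : ℚ[X] :=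
  (u c.1 - u c.2).map (Int.castRingHom ℚ)

/-- the number of the irreducible factors of the difference -/
noncomputable def nf (u : Fin (2 * g + 1) → ℤ[X]) (c : Fin (2 * g + 1) × Fin (2 * g + 1)) : ℕ :=
  Multiset.card (normalizedFactors (diff u c))

open Classical in
/-- for every set `S` of pairwise disjoint pairs, `n` times the sum of the numbers of the irreducible
factors over `S` is at most the sum over the pairs that have exactly one index in common with a pair
of `S` -/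
def Balanced (u : Fin (2 * g + 1) → ℤ[X]) (n : ℕ) : Prop :=
  ∀ S ⊆ Pairs g, (∀ c ∈ S, ∀ d ∈ S, ¬ Meet c d) →
    n * ∑ c ∈ S, nf u c ≤ ∑ d ∈ (Pairs g).filter (fun d => ∃ c ∈ S, Meet c d), nf u d

/-- all the values `G_i(t)` have at most `K` prime factors, counted with multiplicity, and all these
prime factors are larger than `t ^ (1 / K)` -/
def AlmostPrime {r : ℕ} (G : Fin r → ℤ[X]) (K : ℕ) (t : ℤ) : Prop :=
  ∀ i, ArithmeticFunction.cardFactors ((G i).eval t).natAbs ≤ K ∧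
    ∀ p : ℕ, p.Prime → (p : ℤ) ∣ (G i).eval t → (t : ℝ) ^ (1 / (K : ℝ)) < (p : ℝ)

open Classical in
/-- the integers `t`, `X < t ≤ X + Y`, such that the values `u_i(t)` are distinct and all the
`G_i(t)` are almost primes -/
noncomputable def Args (u : Fin (2 * g + 1) → ℤ[X]) {r : ℕ} (G : Fin r → ℤ[X]) (K X Y : ℕ) :
    Finset ℤ :=
  (Ioc (X : ℤ) (X + Y)).filter (fun t => Function.Injective (val u t) ∧ AlmostPrime G K t)

/-! ### Proofs -/

open Pool.Agent.TH344.JG (PR adj SelJ)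
open Pool.Agent.Y723.PJ (BalS)

lemma meet_iff (c d : PR (2 * g + 1)) : Meet c.1 d.1 ↔ adj c d = true := by
  rw [Pool.Agent.Y723.JG.AdjAux.adj_iff]
  unfold Meet
  rw [Ne, Ne, Subtype.ext_iff]

lemma mem_Pairs (c : Fin (2 * g + 1) × Fin (2 * g + 1)) : c ∈ Pairs g ↔ c.1 < c.2 := by
  unfold Pairs
  rw [mem_filter]
  exact ⟨fun h => h.2, fun h => ⟨mem_univ _, h⟩⟩

lemma bal_iff (u : Fin (2 * g + 1) → ℤ[X]) (n : ℕ) :
    Balanced u n ↔ BalS (adj (n := 2 * g + 1)) (fun c => nf u c.1) n := by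
  classical
  have hsum : ∀ (P : Fin (2 * g + 1) × Fin (2 * g + 1) → Prop) [DecidablePred P],
      ∑ d ∈ (Pairs g).filter P, nf u d =
        ∑ d ∈ (univ : Finset (PR (2 * g + 1))).filter (fun d => P d.1), nf u d.1 := by
    intro P _
    symm
    refine sum_bij (fun d _ => d.1) ?_ ?_ ?_ (fun _ _ => rfl)
    · intro d hd
      rw [mem_filter] at hd ⊢
      exact ⟨(mem_Pairs _).2 d.2, hd.2⟩
    · intro d _ d' _ h
      exact Subtype.ext h
    · intro c hc
      rw [mem_filter, mem_Pairs] at hc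
      exact ⟨⟨c, hc.1⟩, mem_filter.2 ⟨mem_univ _, hc.2⟩, rfl⟩
  constructor
  · intro h S hS
    have h1 := h (S.image Subtype.val) (by
      intro c hc
      obtain ⟨d, _, rfl⟩ := mem_image.1 hc
      exact (mem_Pairs _).2 d.2) (by
      intro c hc d hd
      obtain ⟨c', hc', rfl⟩ := mem_image.1 hc
      obtain ⟨d', hd', rfl⟩ := mem_image.1 hd
      rw [meet_iff, hS c' hc' d' hd']
      simp)
    rw [hsum, sum_image (fun a _ b _ h => Subtype.ext h)] at h1
    refine h1.trans (le_of_eq ?_)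
    refine sum_congr ?_ fun _ _ => rfl
    ext d
    rw [mem_filter, mem_filter]
    refine and_congr_right fun _ => ?_
    constructor
    · rintro ⟨c, hc, hm⟩
      obtain ⟨c', hc', rfl⟩ := mem_image.1 hc
      exact ⟨c', hc', (meet_iff _ _).1 hm⟩
    · rintro ⟨c, hc, hm⟩
      exact ⟨c.1, mem_image_of_mem _ hc, (meet_iff _ _).2 hm⟩
  · intro h S hS hS2
    obtain ⟨T, hmem⟩ : ∃ T : Finset (PR (2 * g + 1)), ∀ c, c ∈ T ↔ c.1 ∈ S :=
      ⟨univ.filter (fun c => c.1 ∈ S), fun c => by simp⟩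
    have h1 := h T (by
      intro c hc d hd
      rw [hmem] at hc hd
      have h2 := hS2 _ hc _ hd
      rw [meet_iff] at h2
      simpa using h2)
    have h2 : ∑ c ∈ T, nf u c.1 = ∑ c ∈ S, nf u c := by
      refine sum_bij (fun d _ => d.1) ?_ ?_ ?_ (fun _ _ => rfl)
      · intro d hd
        exact (hmem d).1 hd
      · intro d _ d' _ h
        exact Subtype.ext h
      · intro c hc
        exact ⟨⟨c, (mem_Pairs _).1 (hS hc)⟩, (hmem _).2 hc, rfl⟩
    rw [hsum, ← h2]
    refine h1.trans (le_of_eq ?_)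
    refine sum_congr ?_ fun _ _ => rfl
    ext d
    rw [mem_filter, mem_filter]
    refine and_congr_right fun _ => ?_
    constructor
    · rintro ⟨c, hc, hm⟩
      exact ⟨c.1, (hmem _).1 hc, (meet_iff _ _).2 hm⟩
    · rintro ⟨c, hc, hm⟩
      exact ⟨⟨c, (mem_Pairs _).1 (hS hc)⟩, (hmem _).2 hc, (meet_iff _ _).1 hm⟩

/-- one curve -/
lemma curve {a : Fin (2 * g + 1) → ℤ} (ha : Function.Injective a) (m : ℕ) :
    Finite (ShaTorsion a (2 ^ m)) ∧ Finite (QuotQ a (2 ^ m)) ∧
      quo (2 ^ m) a * sha (2 ^ m) a ≤ (SelJ a).ncard ^ m ∧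
      quo 2 a * 2 ^ corank a ≤ (SelJ a).ncard := by
  have hfin := Pool.Agent.Y723.JG.selJ_fin ⟨g, rfl⟩ ha
  obtain ⟨h1, h2, h3⟩ := sha_sel_pow ha hfin m
  exact ⟨h1, h2, h3, cor_le ha hfin⟩

/-- the bound for the Selmer groups -/
theorem sel_bound {k : ℕ} (hg : 1 ≤ g) (hk : 1 ≤ k) (u : Fin (2 * g + 1) → ℤ[X])
    (hbal : Balanced u (2 ^ k)) {r : ℕ} (G : Fin r → ℤ[X])
    (hG : ∀ i, Irreducible (G i) ∧ 0 < (G i).natDegree)
    (hsq : Squarefree ((∏ c ∈ Pairs g, diff u c) * ∏ i, (G i).map (Int.castRingHom ℚ)))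
    (θ : ℝ) (hθ : 0 < θ) (K : ℕ) (hK : 1 ≤ K) :
    Pool.Agent.TH841.PT.Irr G ∧ ∃ (C : ℝ) (X₀ : ℕ), 0 ≤ C ∧ ∀ X : ℕ, X₀ ≤ X → ∀ Y : ℕ,
      (X : ℝ) ^ θ ≤ Y → Y ≤ X →
      ∑ t ∈ Args u G K X Y, ((SelJ (val u t)).ncard : ℝ) ^ k ≤ C * (Y / (Real.log X) ^ r) := by
  classical
  have hprod : ∏ c ∈ Pairs g, diff u c =
      ∏ c : PR (2 * g + 1), Pool.Agent.TH841.PT.mQ (u c.1.1 - u c.1.2) :=
    prod_subtype (Pairs g) mem_Pairs (diff u)
  rw [hprod] at hsq
  obtain ⟨J, hJ1, hJ2, κ, cls, f, hP, hcard⟩ := Pool.Agent.Y723.PJ.exists_Pn u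
    (hsq.squarefree_of_dvd (Dvd.intro _ rfl))
  have hbal' : BalS (adj (n := 2 * g + 1)) (fun c => (univ.filter (fun j => cls j = c)).card)
      (2 ^ k) := by
    have h1 := (bal_iff u (2 ^ k)).1 hbal
    have h2 : (fun c : PR (2 * g + 1) => (univ.filter (fun j => cls j = c)).card) =
        fun c => nf u c.1 := funext fun c => hcard c
    rw [h2]
    exact h1
  have hdeg : ∀ {p : ℤ[X]}, 0 < p.natDegree →
      ¬ IsUnit (Pool.Agent.TH841.PT.mQ p) := by
    intro p hp hu
    have h6 := Polynomial.natDegree_eq_zero_of_isUnit hu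
    unfold Pool.Agent.TH841.PT.mQ at h6
    rw [Polynomial.natDegree_map_eq_of_injective (RingHom.injective_int (Int.castRingHom ℚ))] at h6
    omega
  have hass : ∀ {p q : ℤ[X]}, Associated p q →
      Associated (Pool.Agent.TH841.PT.mQ p) (Pool.Agent.TH841.PT.mQ q) := by
    intro p q h
    exact h.map (Polynomial.mapRingHom (Int.castRingHom ℚ))
  have hfd : ∀ j, Pool.Agent.TH841.PT.mQ (f j) ∣
      ∏ c : PR (2 * g + 1), Pool.Agent.TH841.PT.mQ (u c.1.1 - u c.1.2) := by
    intro j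
    have hd1 : f j ∣ u (cls j).1.1 - u (cls j).1.2 := by
      rw [hP.fac (cls j)]
      exact dvd_mul_of_dvd_right (dvd_prod_of_mem f
        ((mem_filter (p := fun l => cls l = cls j)).2 ⟨mem_univ j, rfl⟩)) _
    exact (Polynomial.map_dvd _ hd1).trans (dvd_prod_of_mem (fun c : PR (2 * g + 1) =>
      Pool.Agent.TH841.PT.mQ (u c.1.1 - u c.1.2)) (mem_univ (cls j)))
  have hall : Pool.Agent.TH841.PT.Irr (Sum.elim f G) := by
    refine ⟨?_, ?_, ?_⟩
    · rintro (x | x)
      · exact hP.irr.irr x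
      · exact (hG x).1
    · rintro (x | x)
      · exact hP.irr.deg x
      · exact (hG x).2
    · have key : ∀ x y, ¬ Associated (f x) (G y) := by
        intro x y has
        refine hdeg (hP.irr.deg x) (hsq _ ?_)
        exact mul_dvd_mul (hfd x) ((hass has).dvd.trans
          (dvd_prod_of_mem (fun i => (G i).map (Int.castRingHom ℚ)) (mem_univ y)))
      rintro (x | x) (y | y) hne has
      · exact hP.irr.assoc x y (fun h => hne (by rw [h])) has
      · exact key x y has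
      · exact key y x has.symm
      · refine hdeg (hG x).2 (hsq _ ?_)
        refine dvd_mul_of_dvd_right ?_ _
        rw [← mul_prod_erase univ _ (mem_univ x)]
        refine mul_dvd_mul_left _ ((hass has).dvd.trans ?_)
        exact dvd_prod_of_mem (fun i => (G i).map (Int.castRingHom ℚ))
          (mem_erase.2 ⟨fun h => hne (by rw [h]), mem_univ y⟩)
  refine ⟨⟨fun i => hall.irr (Sum.inr i), fun i => hall.deg (Sum.inr i),
    fun i l h => hall.assoc (Sum.inr i) (Sum.inr l) (fun h' => h (Sum.inr.inj h'))⟩, ?_⟩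
  obtain ⟨C, hC0, hC⟩ := Pool.Agent.Y723.PJ.N870.jac_alp (k := k) hg hk hP hbal' hall θ hθ K hK
  refine ⟨C, ⌈(2 : ℝ) ^ (1 / θ)⌉₊ + 2, hC0, fun X hX Y hXY hYX => ?_⟩
  refine hC X hX Y hXY hYX _ (filter_subset _ _) ?_
  intro t ht
  unfold Args at ht
  rw [mem_filter] at ht
  refine ⟨fun j hj => ?_, ht.2.2⟩
  have hd1 : f j ∣ u (cls j).1.1 - u (cls j).1.2 := by
    rw [hP.fac (cls j)]
    exact dvd_mul_of_dvd_right (dvd_prod_of_mem f
      ((mem_filter (p := fun l => cls l = cls j)).2 ⟨mem_univ j, rfl⟩)) _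
  obtain ⟨q, hq⟩ := hd1
  have h1 := congrArg (Polynomial.eval t) hq
  rw [eval_sub, eval_mul, hj, zero_mul, sub_eq_zero] at h1
  exact (cls j).2.ne (ht.2.1 h1)

/-- **Theorem.** Let `g ≥ 1`, `k ≥ 1` and let `u_0, ..., u_(2 g)` be polynomials with integer
coefficients. If all the differences `u_i - u_j` have the same number of irreducible factors and
`2 ^ k ≤ 2 g`, then `u` is balanced for `2 ^ k`. Let `u` be balanced for `2 ^ k`, let `G_0, ..., G_r`
be irreducible, not constant polynomials with integer coefficients and positive leading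
coefficients, without a fixed prime divisor, such that the product of all the `u_i - u_j`, `i < j`,
and all the `G_i` is squarefree over `ℚ`. For `0 < θ ≤ 1` and all large `K` there are `κ > 0`, `C` and
`X₀` such that for `X ≥ X₀` and `X ^ θ ≤ Y ≤ X` the set `P = Args u G K X Y` of the `t` in
`(X, X + Y]` for which the `u_i(t)` are distinct and all the `G_i(t)` have at most `K` prime factors,
all larger than `t ^ (1 / K)`, has at least `κ Y / (log X) ^ (r + 1)` elements, and for the Jacobians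
`J_t` of `y² = ∏ (x - u_i(t))`, `t` in `P`, the groups `Ш(J_t)[2 ^ m]` and `J_t(ℚ) / 2 ^ m` are
finite, the average over `P` of the `k`-th power of `(#(J_t(ℚ) / 2 ^ m) * #Ш(J_t)[2 ^ m]) ^ (1 / m)`
is at most `C` for all `m ≥ 1`, and so is the average of the `k`-th power of
`#(J_t(ℚ) / 2) * 2 ^ corank`. -/
theorem result (g k : ℕ) (hg : 1 ≤ g) (hk : 1 ≤ k) (u : Fin (2 * g + 1) → ℤ[X]) :
    ((∃ ν : ℕ, ∀ c ∈ Pairs g, nf u c = ν) → 2 ^ k ≤ 2 * g → Balanced u (2 ^ k)) ∧
    (Balanced u (2 ^ k) → ∀ (r : ℕ) (G : Fin (r + 1) → ℤ[X]),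
      (∀ i, Irreducible (G i) ∧ 0 < (G i).natDegree ∧ 0 < (G i).leadingCoeff) →
      (∀ p : ℕ, p.Prime → ∃ m : ℕ, ∀ i, ¬ (p : ℤ) ∣ (G i).eval (m : ℤ)) →
      Squarefree ((∏ c ∈ Pairs g, diff u c) * ∏ i, (G i).map (Int.castRingHom ℚ)) →
      ∀ θ : ℝ, 0 < θ → θ ≤ 1 → ∃ K₀ : ℕ, 2 ≤ K₀ ∧ ∀ K : ℕ, K₀ ≤ K →
      ∃ (κ C : ℝ) (X₀ : ℕ), 0 < κ ∧ ∀ X : ℕ, X₀ ≤ X → ∀ Y : ℕ, (X : ℝ) ^ θ ≤ Y → Y ≤ X →
        κ * (Y / (Real.log X) ^ (r + 1)) ≤ ((Args u G K X Y).card : ℝ) ∧
        (∀ t ∈ Args u G K X Y, ∀ m : ℕ, Finite (ShaTorsion (val u t) (2 ^ m)) ∧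
          Finite (QuotQ (val u t) (2 ^ m))) ∧
        (∀ m : ℕ, 1 ≤ m → ∑ t ∈ Args u G K X Y,
          ((quo (2 ^ m) (val u t) * sha (2 ^ m) (val u t) : ℕ) : ℝ) ^ ((k : ℝ) / m) ≤
            C * (Args u G K X Y).card) ∧
        ∑ t ∈ Args u G K X Y, ((quo 2 (val u t) * 2 ^ corank (val u t) : ℕ) : ℝ) ^ k ≤
          C * (Args u G K X Y).card) := by
  classical
  refine ⟨?_, fun hbal r G hG hfix hsq θ hθ hθ1 => ?_⟩
  · rintro ⟨ν, hν⟩ hk2
    rw [bal_iff]
    have h1 : (fun c : PR (2 * g + 1) => nf u c.1) = fun _ => ν :=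
      funext fun c => hν c.1 ((mem_Pairs _).2 c.2)
    rw [h1]
    exact Pool.Agent.Y723.PJ.bal_unif g k ν hk2
  · have hG1 := (sel_bound hg hk u hbal G (fun i => ⟨(hG i).1, (hG i).2.1⟩) hsq θ hθ 1 le_rfl).1
    have hSys : Pool.Agent.W123.RU.Poly.Sys G := by
      refine ⟨fun i => (hG i).1, fun i => (hG i).2.1, fun i => (hG i).2.2, ?_, hfix⟩
      intro i j hij
      by_contra hne
      exact hG1.assoc i j hne (hij ▸ Associated.refl _)
    set Q : ℤ[X] := ∏ c ∈ Pairs g, (u c.1 - u c.2) with hQ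
    have hQ0 : ∀ c ∈ Pairs g, u c.1 - u c.2 ≠ 0 := by
      intro c hc h0
      have h1 : ∏ c ∈ Pairs g, diff u c = 0 := by
        refine prod_eq_zero hc ?_
        unfold diff
        rw [h0, Polynomial.map_zero]
      rw [h1, zero_mul] at hsq
      exact not_squarefree_zero hsq
    have hQne : Q ≠ 0 := prod_ne_zero_iff.2 hQ0
    obtain ⟨K₀, hK₀, hmany⟩ := Pool.Agent.TH841.TR.N870.many_alp G hSys θ hθ hθ1 Q hQne
    refine ⟨K₀, hK₀, fun K hK => ?_⟩
    obtain ⟨κ, hκ, X₁, hX₁, hcount⟩ := hmany K hK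
    obtain ⟨C, X₂, hC0, hC⟩ := (sel_bound hg hk u hbal G (fun i => ⟨(hG i).1, (hG i).2.1⟩) hsq
      θ hθ K (by omega)).2
    refine ⟨κ, C * (1 / κ), X₁ + X₂, hκ, fun X hX Y hXY hYX => ?_⟩
    have hcard : κ * (Y / (Real.log X) ^ (r + 1)) ≤ ((Args u G K X Y).card : ℝ) := by
      refine (hcount X (by omega) Y hXY hYX).trans ?_
      apply Nat.cast_le.2
      refine card_le_card ?_
      intro t ht
      rw [mem_filter] at ht
      unfold Args
      rw [mem_filter]
      refine ⟨ht.1, ?_, ht.2.2⟩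
      have h1 := ht.2.1
      rw [hQ, eval_prod, prod_ne_zero_iff] at h1
      intro i j hij
      by_contra hne
      rcases lt_or_gt_of_ne hne with hlt | hlt
      · refine h1 (i, j) ((mem_Pairs _).2 hlt) ?_
        rw [eval_sub, sub_eq_zero]
        exact hij
      · refine h1 (j, i) ((mem_Pairs _).2 hlt) ?_
        rw [eval_sub, sub_eq_zero]
        exact hij.symm
    have hb : C * (Y / (Real.log X) ^ (r + 1)) ≤ C * (1 / κ) * (Args u G K X Y).card := by
      have h4 : (Y : ℝ) / (Real.log X) ^ (r + 1) ≤ 1 / κ * (Args u G K X Y).card := by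
        rw [one_div, inv_mul_eq_div, le_div_iff₀ hκ]
        linarith
      rw [mul_assoc]
      exact mul_le_mul_of_nonneg_left h4 hC0
    have hsum := (hC X (by omega) Y hXY hYX).trans hb
    have hinj : ∀ t ∈ Args u G K X Y, Function.Injective (val u t) := by
      intro t ht
      unfold Args at ht
      exact (mem_filter.1 ht).2.1
    refine ⟨hcard, fun t ht m => ⟨(curve (hinj t ht) m).1, (curve (hinj t ht) m).2.1⟩,
      fun m hm => ?_, ?_⟩
    · refine le_trans (sum_le_sum fun t ht => ?_) hsum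
      have h1 : ((quo (2 ^ m) (val u t) * sha (2 ^ m) (val u t) : ℕ) : ℝ) ≤
          ((SelJ (val u t)).ncard : ℝ) ^ m := by
        exact_mod_cast (curve (hinj t ht) m).2.2.1
      have h2 := Real.rpow_le_rpow (Nat.cast_nonneg _) h1
        (by positivity : (0 : ℝ) ≤ (k : ℝ) / m)
      refine h2.trans (le_of_eq ?_)
      have hm0 : (m : ℝ) ≠ 0 := by exact_mod_cast (by omega : m ≠ 0)
      rw [← Real.rpow_natCast, ← Real.rpow_mul (Nat.cast_nonneg _), mul_div_cancel₀ _ hm0,
        Real.rpow_natCast]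
    · refine le_trans (sum_le_sum fun t ht => ?_) hsum
      refine pow_le_pow_left₀ (Nat.cast_nonneg _) ?_ k
      exact_mod_cast (curve (hinj t ht) 0).2.2.2

end Pool.Agent.Results.MP_a43263_nt.JacobiansAtAlmostPrimes
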